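import Pool.Agent.TH464.PO.BaseFam3

set_option autoImplicit false

/-!
# Almost prime values of admissible quadratic polynomials: consecutive gaps of prescribed exact
lengths

Let `f(m) = a m ^ 2 + b m + c` be admissible (`a > 0`, irreducible, no fixed prime divisor), for
instance `4 m ^ 2 + 1` or `(2 m + 1) ^ 2 + 4`. Call `m` good if `f(m)` has at most `2 r` prime
factors, all larger than `X ^ (1 / r)`, let `V` be the sieve density of this condition, and for a
finite set `B` let `V_B` be the sieve density of the condition that all `m + t`, `t ∈ B`, satisfy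
it. Given `θ > 0`, a number `s` of gaps, a size `x` and an accuracy `ε`, for all `r ≥ r0` and all
large `X`, in ALL intervals `(Z, Z + Y]` inside `[0, 2 X]` of length `Y ≥ X ^ θ` and for ALL gap
lengths `d_0, ..., d_(s-1) ≥ 1` with sum `L ≤ x / V`: the number of the good integers in `(Z, Z +
Y]` whose next `s` gaps are EXACTLY `d_0, ..., d_(s-1)` is `Y V_B e ^ (-L V)`, up to `ε Y V_B`,
where `B` is the set of the positions `0, d_0, d_0 + d_1, ..., L`. So every vector of gaps which
is not excluded by a congruence occurs, with its frequency.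
-/

namespace Pool.Agent.Results.MP_4b1228_nt.ExactGaps

open Finset Filter

/-- `m` is good: `a m ^ 2 + b m + c` has at most `2 r` prime factors (with multiplicity), all larger than
`X ^ (1 / r)`. -/
def Good (a b c : ℤ) (r X m : ℕ) : Prop :=
  (a * (m : ℤ) ^ 2 + b * m + c).natAbs.primeFactorsList.length ≤ 2 * r ∧
    ∀ p : ℕ, p.Prime → (p : ℤ) ∣ a * (m : ℤ) ^ 2 + b * m + c → (X : ℝ) ^ (1 / (r : ℝ)) < (p : ℝ)

open Classical in
/-- The sieve density: the product of `1 - ρ(p) / p` over the primes `p ≤ X ^ (1 / r)`, where `ρ(p)` is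
the number of the `m` mod `p` with `p ∣ a m ^ 2 + b m + c`. -/
noncomputable def V (a b c : ℤ) (r X : ℕ) : ℝ :=
  ∏ p ∈ (Finset.range (⌊(X : ℝ) ^ (1 / (r : ℝ))⌋₊ + 1)).filter Nat.Prime,
    (1 - (((Finset.range p).filter
      (fun m : ℕ => (p : ℤ) ∣ a * (m : ℤ) ^ 2 + b * m + c)).card : ℝ) / p)

open Classical in
/-- The sieve density of the pattern `B`: the product of `1 - ρ(p) / p` over the primes `p ≤ X ^ (1 / r)`,
where `ρ(p)` is the number of the `m` mod `p` with `p ∣ a (m + t) ^ 2 + b (m + t) + c` for some `t ∈ B`. -/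
noncomputable def VB (a b c : ℤ) (r X : ℕ) (B : Finset ℕ) : ℝ :=
  ∏ p ∈ (Finset.range (⌊(X : ℝ) ^ (1 / (r : ℝ))⌋₊ + 1)).filter Nat.Prime,
    (1 - (((Finset.range p).filter (fun m : ℕ => ∃ t ∈ B,
      (p : ℤ) ∣ a * ((m + t : ℕ) : ℤ) ^ 2 + b * ((m + t : ℕ) : ℤ) + c)).card : ℝ) / p)

/-- The next good integer after `n`. -/
noncomputable def next (a b c : ℤ) (r X : ℕ) (n : ℕ) : ℕ :=
  sInf {m | n < m ∧ Good a b c r X m}

/-- The `j`-th gap after `n`: the distance between the `j`-th and the `(j + 1)`-st good integer after `n`,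
where the `0`-th is `n` itself. -/
noncomputable def gap (a b c : ℤ) (r X : ℕ) (n j : ℕ) : ℕ :=
  (next a b c r X)^[j + 1] n - (next a b c r X)^[j] n

/-- The positions `d 0 + ... + d (i - 1)`, `i = 0, 1, ..., s`, of good integers with the consecutive gaps
`d 0, ..., d (s - 1)`. -/
def pos {s : ℕ} (d : Fin s → ℕ) (i : ℕ) : ℕ :=
  ∑ k ∈ Finset.range i, if h : k < s then d ⟨k, h⟩ else 0

/-- The set of these `s + 1` positions. -/
def pattern {s : ℕ} (d : Fin s → ℕ) : Finset ℕ :=
  (Finset.range (s + 1)).image (pos d)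

open Pool.Agent.TH464.PO Pool.Agent.W123.RU.Poly Pool.Agent.W123.RP

open Classical in
/-- **Consecutive gaps of prescribed exact lengths**, in all intervals. -/
theorem result (a b c : ℤ) (ha : 0 < a)
    (hg : ∀ p : ℕ, p.Prime → ¬ ((p : ℤ) ∣ a ∧ (p : ℤ) ∣ b ∧ (p : ℤ) ∣ c))
    (hpar : ¬ (Even (a + b) ∧ Even c)) (hD : ¬ IsSquare (b ^ 2 - 4 * a * c))
    (θ : ℝ) (hθ : 0 < θ) (s : ℕ) (x ε : ℝ) (hε : 0 < ε) :
    ∃ r0 : ℕ, ∀ r : ℕ, r0 ≤ r → ∀ᶠ X : ℕ in atTop, ∀ Z Y : ℕ, (X : ℝ) ^ θ ≤ Y → Z + Y ≤ 2 * X →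
      ∀ d : Fin s → ℕ, (∀ j, 1 ≤ d j) → pos d s * V a b c r X ≤ x →
        |(((Finset.Ioc Z (Z + Y)).filter
            (fun m => Good a b c r X m ∧ ∀ j : Fin s, gap a b c r X m j = d j)).card : ℝ) -
          Y * VB a b c r X (pattern d) * Real.exp (-(pos d s * V a b c r X))| ≤
            ε * (Y * VB a b c r X (pattern d)) := by
  obtain ⟨r0, h0⟩ := poly_exactg (qs a b c) (qs_sys a b c ha hg hpar hD) (qs_noTr a b c ha) θ hθ s x ε
    hε
  refine ⟨max r0 1, ?_⟩
  intro r hr
  filter_upwards [h0 r ((le_max_left _ _).trans hr), sf_APq a b c r ((le_max_right _ _).trans hr)]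
    with X hX hap
  exact hX (Good a b c r X) (V a b c r X) (VB a b c r X) hap (qs_V a b c _) (fun B => V_gen' _ _
    (fun p m => exists_congr fun t => and_congr_right fun _ => qs_Q a b c p (m + t)) _)

end Pool.Agent.Results.MP_4b1228_nt.ExactGaps
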