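import Pool.Agent.TH464.PO.PolyPair2

set_option autoImplicit false

/-!
# The Ankeny–Chowla–Hasse and Lang families for almost primes: patterns with prescribed
surroundings

Let `A ≥ 1`, and `c = 1` if `A` is even, `c = 4` if `A` is odd. Let `q` be good if `q` has at most
`r` prime factors and `(A q) ^ 2 + c` at most `2 r`, all of them larger than `X ^ (1 / r)`. (For
`A = 2 n`, `c = 1` and for `A = 2 n + 1`, `c = 4` these are the two families of the problem, with
almost primes instead of primes.) Let `V` be the sieve density of this condition, and for a finite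
set `B` let `V_B` be the sieve density of the condition that all `q + t`, `t ∈ B`, satisfy it.
Given `θ > 0`, a size `β` of patterns, a number `w` of windows, a size `x` and an accuracy `ε`,
for all `r ≥ r0` and all large `X`, in ALL intervals `(Z, Z + Y]` inside `[0, 2 X]` of length
`Y ≥ X ^ θ`, for ALL sets `B ⊆ [0, x / V]` of at most `β` elements, ALL disjoint windows
`(u_i, v_i] ⊆ [0, x / V]` without elements of `B` and ALL finite sets `E_i`: the number of the `q`
in `(Z, Z + Y]` such that all `q + h`, `h ∈ B`, are good and the number of the good integers in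
`(q + u_i, q + v_i]` lies in `E_i` for every `i` is `Y V_B` times the product of the Poisson
probabilities of the `E_i` for the means `(v_i - u_i) V`, up to `ε Y V_B`.
-/

namespace Pool.Agent.Results.MP_4b1228_nt.PatternsTwoFactors

open Finset Filter

/-- `N` has at most `B` prime factors (with multiplicity), all of them larger than `z`. -/
def AlmostPrime (B : ℕ) (z : ℝ) (N : ℕ) : Prop :=
  N.primeFactorsList.length ≤ B ∧ ∀ p : ℕ, p.Prime → p ∣ N → z < (p : ℝ)

/-- `q` is good: `q` has at most `r` prime factors and `(A q) ^ 2 + c` at most `2 r`, all of them larger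
than `X ^ (1 / r)`. -/
def Good (A c r X q : ℕ) : Prop :=
  AlmostPrime r ((X : ℝ) ^ (1 / (r : ℝ))) q ∧
    AlmostPrime (2 * r) ((X : ℝ) ^ (1 / (r : ℝ))) ((A * q) ^ 2 + c)

open Classical in
/-- The sieve density: the product of `1 - ρ(p) / p` over the primes `p ≤ X ^ (1 / r)`, where `ρ(p)` is
the number of the `q` mod `p` with `p ∣ q` or `p ∣ (A q) ^ 2 + c`. -/
noncomputable def V (A c r X : ℕ) : ℝ :=
  ∏ p ∈ (Finset.range (⌊(X : ℝ) ^ (1 / (r : ℝ))⌋₊ + 1)).filter Nat.Prime,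
    (1 - (((Finset.range p).filter (fun q : ℕ => p ∣ q ∨ p ∣ (A * q) ^ 2 + c)).card : ℝ) / p)

open Classical in
/-- The sieve density of the pattern `B`: the product of `1 - ρ(p) / p` over the primes `p ≤ X ^ (1 / r)`,
where `ρ(p)` is the number of the `q` mod `p` for which the previous condition holds at `q + t` for some
`t ∈ B`. -/
noncomputable def VB (A c r X : ℕ) (B : Finset ℕ) : ℝ :=
  ∏ p ∈ (Finset.range (⌊(X : ℝ) ^ (1 / (r : ℝ))⌋₊ + 1)).filter Nat.Prime,
    (1 - (((Finset.range p).filter (fun q : ℕ => ∃ t ∈ B, p ∣ q + t ∨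
      p ∣ (A * (q + t)) ^ 2 + c)).card : ℝ) / p)

open Classical in
/-- The number of the good `q` in `(u, v]`. -/
noncomputable def count (A c r X : ℕ) (u v : ℕ) : ℕ :=
  ((Finset.Ioc u v).filter (fun q => Good A c r X q)).card

/-- The probability of `E` for the Poisson distribution of mean `x`. -/
noncomputable def Poi (x : ℝ) (E : Finset ℕ) : ℝ :=
  ∑ j ∈ E, Real.exp (-x) * x ^ j / j.factorial

open Pool.Agent.TH464.PO Pool.Agent.TH464.PW Pool.Agent.W123.RU Pool.Agent.W123.RU.Poly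
open Pool.Agent.H373R2.T7 Pool.Agent.W123.RP

lemma quad_nat (A c m : ℕ) : ((quad ((A : ℤ) ^ 2) 0 c).eval (m : ℤ)) =
    (((A * m) ^ 2 + c : ℕ) : ℤ) := by
  rw [quad_eval]
  push_cast
  ring

lemma ln_nat (m : ℕ) : ((ln 1 0).eval (m : ℤ)) = ((m : ℕ) : ℤ) := by
  rw [ln_eval]
  ring

lemma good_iff (A c : ℕ) (hA : 1 ≤ A) (r : ℕ) (hr : 1 ≤ r) : ∀ᶠ X : ℕ in atTop, ∀ m : ℕ,
    m ≤ 3 * X → (Sf (Q (fA A c)) ⌊(X : ℝ) ^ (1 / (r : ℝ))⌋₊ m ↔ Good A c r X m) := by
  have hA0 : (A : ℤ) ^ 2 ≠ 0 := by positivity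
  filter_upwards [sf_two (ln 1 0) (quad ((A : ℤ) ^ 2) 0 c) 1 2 (ln_deg 1 0 one_ne_zero).le
    (quad_deg _ 0 _ hA0).le r hr] with X hX m hm
  have h := hX m hm
  rw [ln_nat, quad_nat, one_mul, Int.natAbs_natCast, Int.natAbs_natCast] at h
  exact h

lemma Q_iff (A c : ℕ) (p m : ℕ) : Q (fA A c) p m ↔ (p ∣ m ∨ p ∣ (A * m) ^ 2 + c) := by
  unfold fA
  rw [Q_two, ln_nat, quad_nat, Int.natCast_dvd_natCast, Int.natCast_dvd_natCast]

open Classical in
/-- **Patterns with prescribed surroundings**, in all intervals. -/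
theorem result (A c : ℕ) (hA : 1 ≤ A) (hc : (Even A ∧ c = 1) ∨ (Odd A ∧ c = 4))
    (θ : ℝ) (hθ : 0 < θ) (β w : ℕ) (x ε : ℝ) (hε : 0 < ε) :
    ∃ r0 : ℕ, ∀ r : ℕ, r0 ≤ r → ∀ᶠ X : ℕ in atTop, ∀ Z Y : ℕ, (X : ℝ) ^ θ ≤ Y → Z + Y ≤ 2 * X →
      ∀ B : Finset ℕ, B.card ≤ β → (∀ h ∈ B, h * V A c r X ≤ x) →
      ∀ u v : Fin w → ℕ, (∀ i, u i ≤ v i) → (∀ i, v i * V A c r X ≤ x) →
      (∀ i j, i ≠ j → v i ≤ u j ∨ v j ≤ u i) → (∀ i, ∀ h ∈ B, h ≤ u i ∨ v i < h) →
      ∀ E : Fin w → Finset ℕ,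
        |(((Finset.Ioc Z (Z + Y)).filter (fun q => (∀ h ∈ B, Good A c r X (q + h)) ∧
            ∀ i, count A c r X (q + u i) (q + v i) ∈ E i)).card : ℝ) -
          Y * VB A c r X B * ∏ i, Poi (((v i : ℝ) - u i) * V A c r X) (E i)| ≤
            ε * (Y * VB A c r X B) := by
  obtain ⟨r0, h0⟩ := poly_baseg (fA A c) (fA_sys A c hA hc) (fA_noTr A c hA) θ hθ β w x ε hε
  refine ⟨max r0 1, ?_⟩
  intro r hr
  filter_upwards [h0 r ((le_max_left _ _).trans hr),
    good_iff A c hA r ((le_max_right _ _).trans hr)] with X hX hap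
  exact hX (Good A c r X) (V A c r X) (VB A c r X) hap
    (V_gen' _ _ (Q_iff A c) _) (fun B => V_gen' _ _
    (fun p m => exists_congr fun t => and_congr_right fun _ => Q_iff A c p (m + t)) _)

end Pool.Agent.Results.MP_4b1228_nt.PatternsTwoFactors
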