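import Pool.Agent.TH977.PW.Inst

set_option autoImplicit false

/-!
# The Ankeny–Chowla–Hasse and Lang families: primes `q` with almost prime values

Let `(s, e)` be `(2 n, 1)` with `n > 1` or `(2 n + 1, 4)` with `n ≥ 1`: if `q` and `(s q) ^ 2 + e`
are primes, then `(s q) ^ 2 + e` belongs to the family `𝒜` respectively `ℬ`. Let `R s e r` be the
set of the `q` for which all prime factors of `q` and of `(s q) ^ 2 + e` are larger than
`q ^ (1 / r)`; it contains all primes `q` with `(s q) ^ 2 + e` prime. The interval `(X, 2X]` contains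
at least `κ X / log ^ 2 X` PRIMES `q` in `R s e r` for which `(s q) ^ 2 + e` has at most `r` prime
factors. Let `A` be an ARBITRARY subset of `R s e r` (the set of these primes, or the set of the
primes `q` with `(s q) ^ 2 + e` prime). In every short interval `(X, X + Y]`, `X ^ θ ≤ Y ≤ X / 2`,
all but `ε Y / log ^ 2 X` of the elements of `A` are regular points of `A`.
-/

namespace Pool.Agent.Results.MP_4b1228_nt.RegularNeighbours

open Finset Filter
open Pool.Agent.TH977.PW (N Irregular)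

/-- All prime factors of `q` and of `(s q) ^ 2 + e` are larger than `q ^ (1 / r)`. -/
def R (s e r : ℕ) : Set ℕ :=
  {q | ∀ l : ℕ, l.Prime → l ∣ q * ((s * q) ^ 2 + e) → (q : ℝ) ^ (1 / (r : ℝ)) < (l : ℝ)}

lemma cast_eq (s e m : ℕ) : ((s : ℤ) ^ 2) * (m : ℤ) ^ 2 + 0 * m + (e : ℤ) =
    (((s * m) ^ 2 + e : ℕ) : ℤ) := by
  push_cast
  ring

/-- **Regular neighbours, the families `𝒜` and `ℬ`.** -/
theorem result (s e : ℕ)
    (hs : (∃ n : ℕ, 1 < n ∧ s = 2 * n ∧ e = 1) ∨ (∃ n : ℕ, 1 ≤ n ∧ s = 2 * n + 1 ∧ e = 4))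
    (θ : ℝ) (hθ : 0 < θ) (hθ1 : θ ≤ 1) :
    ∃ r₀ : ℕ, 2 ≤ r₀ ∧ ∀ r : ℕ, r₀ ≤ r →
      (∀ q : ℕ, q.Prime → ((s * q) ^ 2 + e).Prime → q ∈ R s e r) ∧
      (∃ κ : ℝ, 0 < κ ∧ ∀ᶠ X : ℕ in atTop, κ * X / Real.log X ^ 2 ≤
        N {q | q.Prime ∧ q ∈ R s e r ∧ ((s * q) ^ 2 + e).primeFactorsList.length ≤ r}
          X (2 * X)) ∧
      ∀ ε : ℝ, 0 < ε → ∃ c : ℝ, 0 < c ∧ ∀ δ : ℝ, 0 < δ → ∃ B : ℕ,
        ∀ᶠ X : ℕ in atTop, ∀ Y : ℕ, (X : ℝ) ^ θ ≤ Y → 2 * Y ≤ X → ∀ A : Set ℕ, A ⊆ R s e r →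
          (N (Irregular A 2 c δ B X Y) X (X + Y) : ℝ) ≤ ε * Y / Real.log X ^ 2 := by
  have hs0 : 0 < s := by rcases hs with ⟨n, h1, h2, _⟩ | ⟨n, h1, h2, _⟩ <;> omega
  have he0 : 0 < e := by rcases hs with ⟨n, _, _, h1⟩ | ⟨n, _, _, h1⟩ <;> omega
  have hse : ∀ p : ℕ, p.Prime → ¬ (p ∣ s ∧ p ∣ e) := by
    rintro p hp ⟨h1, h2⟩
    rcases hs with ⟨n, _, _, h3⟩ | ⟨n, _, h3, h4⟩
    · rw [h3] at h2
      exact hp.one_lt.ne' (Nat.dvd_one.1 h2)
    · rw [h4] at h2
      have h5 : p ∣ 2 := by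
        have : p ∣ 2 ^ 2 := by norm_num; exact h2
        exact hp.dvd_of_dvd_pow this
      have h6 := (Nat.prime_dvd_prime_iff_eq hp Nat.prime_two).1 h5
      subst h6
      omega
  obtain ⟨r0, hr0, h⟩ := Pool.Agent.TH977.PW.final_quad_prime ((s : ℤ) ^ 2) 0 (e : ℤ)
    (by positivity)
    (fun p hp h => by
      refine hse p hp ⟨?_, by exact_mod_cast h.2.2⟩
      have h1 : p ∣ s ^ 2 := by exact_mod_cast h.1
      exact hp.dvd_of_dvd_pow h1)
    (fun h => by
      obtain ⟨x, hx⟩ := h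
      have h1 : (0 : ℤ) < (s : ℤ) ^ 2 * e := by positivity
      nlinarith [mul_self_nonneg x])
    (fun p hp => by
      by_cases h1 : p ∣ (s * 1) ^ 2 + e
      · refine ⟨2, ?_, ?_⟩
        · intro h2
          have hp2 := (Nat.prime_dvd_prime_iff_eq hp Nat.prime_two).1 h2
          subst hp2
          rcases hs with ⟨n, _, h3, h4⟩ | ⟨n, _, h3, h4⟩
          · rw [h3, h4] at h1
            have e1 : (2 * n * 1) ^ 2 + 1 = 2 * (2 * n ^ 2) + 1 := by ring
            rw [e1] at h1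
            omega
          · rw [h3, h4] at h1
            have e1 : ((2 * n + 1) * 1) ^ 2 + 4 = 2 * (2 * n ^ 2 + 2 * n + 2) + 1 := by ring
            rw [e1] at h1
            omega
        · intro h2
          rw [cast_eq, Int.natCast_dvd_natCast] at h2
          have h3 : p ∣ ((s * 2) ^ 2 + e) - ((s * 1) ^ 2 + e) := Nat.dvd_sub h2 h1
          have e1 : ((s * 2) ^ 2 + e) - ((s * 1) ^ 2 + e) = 3 * s ^ 2 := by
            have : (s * 2) ^ 2 + e = 3 * s ^ 2 + ((s * 1) ^ 2 + e) := by ring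
            omega
          rw [e1] at h3
          rcases (Nat.Prime.dvd_mul hp).1 h3 with h4 | h4
          · have hp3 := (Nat.prime_dvd_prime_iff_eq hp Nat.prime_three).1 h4
            subst hp3
            have h5 : e % 3 = 1 := by rcases hs with ⟨n, _, _, h6⟩ | ⟨n, _, _, h6⟩ <;> omega
            have h6 : s % 3 = 0 ∨ s % 3 = 1 ∨ s % 3 = 2 := by omega
            have h7 : ((s * 1) ^ 2 + e) % 3 = 0 := Nat.mod_eq_zero_of_dvd h1
            rcases h6 with h6 | h6 | h6 <;>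
              simp [Nat.add_mod, Nat.pow_mod, Nat.mul_mod, h5, h6] at h7
          · have h5 : p ∣ s := hp.dvd_of_dvd_pow h4
            refine hse p hp ⟨h5, ?_⟩
            have h6 : p ∣ (s * 1) ^ 2 := by
              rw [mul_one]
              exact dvd_pow h5 two_ne_zero
            exact (Nat.dvd_add_right h6).1 h1
      · refine ⟨1, ?_, ?_⟩
        · intro h2
          exact hp.one_lt.ne' (Nat.dvd_one.1 h2)
        · intro h2
          rw [cast_eq, Int.natCast_dvd_natCast] at h2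
          exact h1 h2)
    (fun r => R s e r)
    (fun r => {q | q.Prime ∧ q ∈ R s e r ∧ ((s * q) ^ 2 + e).primeFactorsList.length ≤ r})
    (fun r m _ hm => ⟨fun p hp hd => hm p hp (hd.mul_right _), fun p hp hd => hm p hp (by
      rw [cast_eq, Int.natCast_dvd_natCast] at hd
      exact hd.mul_left _)⟩)
    (fun r m hr hm h1 h2 => by
      refine ⟨hm, ?_, ?_⟩
      · intro q hq hd
        rcases (Nat.Prime.dvd_mul hq).1 hd with h3 | h3
        · exact Pool.Agent.TH977.PW.rpow_lt_dvd r m q hr hm hq h3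
        · refine h1 q hq ?_
          rw [cast_eq, Int.natCast_dvd_natCast]
          exact h3
      · rw [cast_eq, Int.natAbs_natCast] at h2
        exact h2) θ hθ hθ1
  refine ⟨r0, hr0, fun r hr => ⟨?_, (h r hr).1, (h r hr).2⟩⟩
  intro p hp hp2 q hq hd
  rcases (Nat.Prime.dvd_mul hq).1 hd with h3 | h3
  · exact Pool.Agent.TH977.PW.rpow_lt_dvd r p q (hr0.trans hr) hp hq h3
  · rw [(Nat.prime_dvd_prime_iff_eq hq hp2).1 h3]
    apply Pool.Agent.TH977.PW.rpow_lt_of_le r p _ (hr0.trans hr) hp.two_le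
    have h4 : 1 ≤ s ^ 2 := Nat.one_le_pow _ _ hs0
    have h5 : (s * p) ^ 2 = s ^ 2 * p ^ 2 := by ring
    have h6 := hp.two_le
    nlinarith [Nat.mul_le_mul_right (p ^ 2) h4]

end Pool.Agent.Results.MP_4b1228_nt.RegularNeighbours
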